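import Pool.Agent.Work.MP_db9399_sl.Interface
import Pool.Agent.Work.MP_db9399_th_helper59.STRUCT2

/-!
# MP_db9399, FRAME of exception (iii), block STR: the spots
-/

set_option autoImplicit false

namespace Pool.Agent.Work.MP_db9399_sl_helper59

open Finset Classical
open Pool.Agent.Work.MP_db9399_all (nb)
open Pool.Agent.Work.MP_db9399_sl
open Pool.Agent.Work.MP_db9399_th.helper59 (Spots2 struct2)

universe u

theorem STR : Stmt_STR.{u} := by
  intro θ hθ hθ1
  refine ⟨θ / 5, by positivity, by linarith, ?_⟩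
  intro η g0 hη hg0
  obtain ⟨ζ, hζ⟩ : ∃ ζ : ℝ, ζ = θ / 5 := ⟨_, rfl⟩
  obtain ⟨κ, hκ⟩ : ∃ κ : ℝ, κ = min ζ (η / 8) := ⟨_, rfl⟩
  have hζ0 : 0 < ζ := by rw [hζ]; positivity
  have hκ0 : 0 < κ := by rw [hκ]; exact lt_min hζ0 (by positivity)
  have hκζ : κ ≤ ζ := by rw [hκ]; exact min_le_left _ _
  have hκη : κ ≤ η / 8 := by rw [hκ]; exact min_le_right _ _
  have hζ1 : ζ ≤ 1 / 50 := by rw [hζ]; linarith
  obtain ⟨g1, hg1, -, H⟩ := struct2.{u} ζ κ hκ0 hκζ (by linarith)
  obtain ⟨g, hgd⟩ : ∃ g : ℝ, g = min g1 (min g0 (1 / 10)) := ⟨_, rfl⟩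
  have hg : 0 < g := by rw [hgd]; exact lt_min hg1 (lt_min hg0 (by norm_num))
  have hgg1 : g ≤ g1 := by rw [hgd]; exact min_le_left _ _
  have hgg0 : g ≤ g0 := by rw [hgd]; exact (min_le_right _ _).trans (min_le_left _ _)
  have hg10 : g ≤ 1 / 10 := by rw [hgd]; exact (min_le_right _ _).trans (min_le_right _ _)
  refine ⟨g, 1, hg, hgg0, hg10, ?_⟩
  intro V _ G d hd hdeg hBip
  obtain ⟨Ys, hY⟩ := H g hg hgg1 G d hd hdeg
  have hd0 : (1 : ℝ) ≤ d := by exact_mod_cast hd
  have hdn : (0 : ℝ) ≤ d := by linarith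
  have hζd : 0 < ζ * d := by positivity
  have hκd : κ * d ≤ ζ * d := mul_le_mul_of_nonneg_right hκζ hdn
  have hθζ : θ = 5 * ζ := by rw [hζ]; ring
  have hζd1 : ζ * d ≤ 1 / 50 * d := mul_le_mul_of_nonneg_right hζ1 hdn
  have hsplit : ∀ (v : V) (Y : Finset V), ((Y \ nb G v).card : ℝ) + (nb G v ∩ Y).card =
      Y.card := by
    intro v Y
    have h := Finset.card_sdiff_add_card_inter Y (nb G v)
    rw [Finset.inter_comm] at h
    exact_mod_cast h
  have hin : ∀ Y ∈ Ys, ∀ v ∈ Y, (1 - κ) * d - 2 * ζ * d ≤ ((nb G v ∩ Y).card : ℝ) := by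
    intro Y hY1 v hv
    have h1 := hY.low Y hY1
    have h2 := hY.inn Y hY1 v hv
    have h3 := hsplit v Y
    linarith
  -- the graph outside the spots
  have hsub : ∀ v, nb (Gout G Ys) v ⊆ nb G v := by
    intro v w hw
    simp only [nb, Gout, mem_filter, mem_univ, true_and] at hw ⊢
    exact hw.1
  have heq : ∀ v, ¬ InS Ys v → nb (Gout G Ys) v = nb G v := by
    intro v hv
    apply Finset.Subset.antisymm (hsub v)
    intro w hw
    simp only [nb, Gout, mem_filter, mem_univ, true_and] at hw ⊢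
    exact ⟨hw, fun h => hv h.1⟩
  have hlight : ∀ s, InS Ys s → ((nb (Gout G Ys) s).card : ℝ) ≤ 2 * ζ * d := by
    intro s hs
    obtain ⟨Y, hY1, hsY⟩ := hs
    refine le_trans ?_ (hY.out Y hY1 s hsY)
    have : nb (Gout G Ys) s ⊆ nb G s \ Y := by
      intro w hw
      simp only [nb, Gout, mem_filter, mem_univ, true_and] at hw
      refine mem_sdiff.2 ⟨by simp only [nb, mem_filter, mem_univ, true_and]; exact hw.1,
        fun h => hw.2 ⟨⟨Y, hY1, hsY⟩, ⟨Y, hY1, h⟩⟩⟩
    exact_mod_cast card_le_card this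
  have hfree : ∀ v, (1 - g) * d ≤ ((nb (Gout G Ys) v).card : ℝ) → ¬ InS Ys v := by
    intro v hv hs
    have h1 := hlight v hs
    nlinarith
  refine ⟨Ys, hY.dis, ?_, ?_, ?_, ?_, ?_, ?_, ?_, ?_⟩
  · intro Y hY1
    have h1 := hY.low Y hY1
    nlinarith
  · intro Y hY1
    have h1 := hY.upp Y hY1
    nlinarith
  · intro Y hY1 v hv
    have h1 := hin Y hY1 v hv
    nlinarith
  · intro Y hY1 v hv
    have h1 := hY.inn Y hY1 v hv
    nlinarith
  · -- the total boundary
    intro Y hY1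
    obtain ⟨P, hP⟩ : ∃ P : Finset V, P = Y.filter (fun v => κ * d < ((nb G v \ Y).card : ℝ) ∨
      κ * d < ((Y \ nb G v).card : ℝ)) := ⟨_, rfl⟩
    have hPY : P ⊆ Y := by rw [hP]; exact filter_subset _ _
    have hPc : (P.card : ℝ) ≤ κ * d := by rw [hP]; exact hY.few Y hY1
    have hlow := hY.low Y hY1
    have h1 : ∀ v ∈ Y, (d : ℝ) - (nb G v ∩ Y).card ≤ 2 * κ * d +
        (if v ∈ P then (κ + 2 * ζ) * d else 0) := by
      intro v hv
      have h3 := hsplit v Y
      by_cases hvP : v ∈ P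
      · rw [if_pos hvP]
        have h4 := hin Y hY1 v hv
        have h5 : 0 ≤ 2 * κ * d := by positivity
        nlinarith
      · rw [if_neg hvP]
        have h4 : ((Y \ nb G v).card : ℝ) ≤ κ * d := by
          by_contra h
          push Not at h
          apply hvP
          rw [hP]
          exact mem_filter.2 ⟨hv, Or.inr h⟩
        nlinarith
    have h2 : ∑ v ∈ Y, ((d : ℝ) - (nb G v ∩ Y).card) ≤
        ∑ v ∈ Y, (2 * κ * d + (if v ∈ P then (κ + 2 * ζ) * d else 0)) :=
      Finset.sum_le_sum h1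
    have h3 : ∑ v ∈ Y, (2 * κ * d + (if v ∈ P then (κ + 2 * ζ) * d else 0)) =
        Y.card * (2 * κ * d) + P.card * ((κ + 2 * ζ) * d) := by
      rw [Finset.sum_add_distrib, Finset.sum_const, nsmul_eq_mul]
      congr 1
      rw [← Finset.sum_filter, Finset.sum_const, nsmul_eq_mul]
      congr 3
      rw [Finset.filter_mem_eq_inter]
      exact Finset.inter_eq_right.2 hPY
    have h4 : (P.card : ℝ) * ((κ + 2 * ζ) * d) ≤ κ * d * ((κ + 2 * ζ) * d) :=
      mul_le_mul_of_nonneg_right hPc (by positivity)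
    have h5 : κ * d * ((κ + 2 * ζ) * d) ≤ κ * d * Y.card := by
      apply mul_le_mul_of_nonneg_left _ (by positivity)
      nlinarith
    have h6 : (Y.card : ℝ) * (2 * κ * d) + κ * d * Y.card ≤ η * d * Y.card := by
      have h7 : 3 * κ ≤ η := by linarith
      have h8 : (3 * κ) * ((d : ℝ) * Y.card) ≤ η * (d * Y.card) :=
        mul_le_mul_of_nonneg_right h7 (mul_nonneg hdn (Nat.cast_nonneg _))
      linarith
    linarith
  · -- every other vertex misses many vertices of the spot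
    intro Y hY1 v hv
    rw [← hζ]
    by_cases hs : InS Ys v
    · obtain ⟨Y', hY2, hvY⟩ := hs
      have hne : Y ≠ Y' := fun h => hv (by rw [h]; exact hvY)
      have h1 := hin Y' hY2 v hvY
      have h2 : (nb G v ∩ Y).card + (nb G v ∩ Y').card ≤ (nb G v).card := by
        rw [← Finset.card_union_of_disjoint]
        · apply card_le_card
          intro x hx
          rcases mem_union.1 hx with hx | hx
          · exact (mem_inter.1 hx).1
          · exact (mem_inter.1 hx).1
        · exact (hY.dis Y hY1 Y' hY2 hne).mono inter_subset_right inter_subset_right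
      have h3 := h2.trans (hdeg v)
      have h4 : ((nb G v ∩ Y).card : ℝ) + (nb G v ∩ Y').card ≤ d := by exact_mod_cast h3
      have h5 := hY.low Y hY1
      have h6 := hsplit v Y
      linarith
    · exact hY.far Y hY1 v (fun Y' hY2 h => hs ⟨Y', hY2, h⟩)
  · intro S T hST hT hc
    have h1 : ∀ t ∈ T, nb (Gout G Ys) t = nb G t := fun t ht => heq t (hfree t (hT t ht))
    have h2 : ∑ t ∈ T, ((nb (Gout G Ys) t \ S).card : ℝ) = ∑ t ∈ T, ((nb G t \ S).card : ℝ) :=
      Finset.sum_congr rfl fun t ht => by rw [h1 t ht]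
    rw [h2]
    have hT0 : (0 : ℝ) ≤ T.card := Nat.cast_nonneg _
    have h3 := hBip S T hST (fun t ht => by
      have h4 := hT t ht
      rw [h1 t ht] at h4
      have h5 : (1 - g0) * (d : ℝ) ≤ (1 - g) * d := by
        apply mul_le_mul_of_nonneg_right _ hdn
        linarith
      linarith) (by
      have : (1 + g) * (T.card : ℝ) ≤ (1 + g0) * T.card := by
        apply mul_le_mul_of_nonneg_right _ hT0
        linarith
      linarith)
    refine le_trans ?_ h3
    apply mul_le_mul_of_nonneg_right _ hT0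
    exact mul_le_mul_of_nonneg_right hgg0 hdn
  · intro C hC hc
    have h1 : ∀ t ∈ C, nb (Gout G Ys) t = nb G t := fun t ht => heq t (hfree t (hC t ht))
    have h2 : ∑ t ∈ C, ((nb (Gout G Ys) t \ C).card : ℝ) = ∑ t ∈ C, ((nb G t \ C).card : ℝ) :=
      Finset.sum_congr rfl fun t ht => by rw [h1 t ht]
    rw [h2]
    refine hY.nsc C ?_ ?_ hc
    · intro Y hY1
      rw [Finset.disjoint_left]
      intro v hv hvY
      exact hfree v (hC v hv) ⟨Y, hY1, hvY⟩
    · intro v hv
      rw [← h1 v hv]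
      exact hC v hv

end Pool.Agent.Work.MP_db9399_sl_helper59
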